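import Pool.Agent.H68.N4.FFull

/-!
# Natural fullness at a flat context of a family

`ffam`: the flat micro row at one natural box, for every number of passive coordinates: static ones
(`sz`), coordinates whose frames turn with a slope different from one (`sr`), coordinates of slope one
(`ss`). Times enter only through the dependence `tm`; apply it to `F.cot R` for times which depend on
the line.
-/

set_option autoImplicit false

namespace Pool.KG

open Finset Real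
open Pool.Agent.H49.Ent Pool.Agent.H32.Dense Pool.STK Pool.KA Pool.KSAT Pool.K2S
open Pool.S6U Pool.OCG Pool.PLV

section defs

variable {m J : ℕ}

/-- The rows across the own frame. -/
noncomputable def nuf (F : Fam m J) (w : ℕ) (c : Fin m → ℕ) (M : F.Ω → Fin m → Fin m → ℝ)
    (i0 : Fin m) {n : ℕ} (s : Fin n → Fin m) (S : F.Ω → Fin n → ℝ) (ω : F.Ω) (i : Fin n) : ℝ :=
  F.mx w c M ω (s i) - S ω i * F.mx w c M ω i0

/-- The velocity across the own frame. -/
noncomputable def kaf (F : Fam m J) (c : Fin m → ℕ) (M : F.Ω → Fin m → Fin m → ℝ)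
    (i0 : Fin m) {n : ℕ} (s : Fin n → Fin m) (S : F.Ω → Fin n → ℝ) (ω : F.Ω) (i : Fin n) : ℝ :=
  F.md c M ω (s i) - S ω i * F.md c M ω i0

/-- The data at a flat context of a family: `i0` is the active direction, `sz` are the static
passive coordinates, `sr` the turning ones of slope different from one, `ss` those of slope one. -/
structure FfD (F : Fam m J) (p : F.Ω → ℝ) (w : ℕ) (c : Fin m → ℕ)
    (M : F.Ω → Fin m → Fin m → ℝ) {r s : ℕ}
    (Sr : F.Ω → Fin r → ℝ) (Ss : F.Ω → Fin s → ℝ) {Γ : Type} (G : F.Ω → Γ) (K : ℝ) : Prop where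
  law : IsLaw p
  dM : Det p (slam F w) M
  dSr : Det p (fun ω => (F.blb w c M ω, G ω)) Sr
  dSs : Det p (fun ω => (F.blb w c M ω, G ω)) Ss
  hSr : ∀ ω, 0 < p ω → ∀ i, |Sr ω i| ≤ K
  hSs : ∀ ω, 0 < p ω → ∀ i, |Ss ω i| ≤ K

/-- The hypotheses at a flat context of a family. -/
structure FfH (F : Fam m J) (p : F.Ω → ℝ) (w : ℕ) (c : Fin m → ℕ)
    (M : F.Ω → Fin m → Fin m → ℝ) (i0 : Fin m) {a r s : ℕ} (sz : Fin a → Fin m)
    (sr : Fin r → Fin m) (ss : Fin s → Fin m) (Sr : F.Ω → Fin r → ℝ) (Ss : F.Ω → Fin s → ℝ)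
    {Γ : Type} (G : F.Ω → Γ) (X : ℕ) (x₁ ε₂ ι δ : ℝ) : Prop where
  /-- the times of two samples of one line, the own frame of the second one, and the line -/
  tm : dp (dbl p (slam F w)) (fun x => (F.T x.1, (G x.2, F.T x.2))) (fun x => F.lbr w c M X x.1)
    (fun x => F.blb w c M x.1) ≤ ι * X
  /-- the own frames of a typical line are not in a strip -/
  th : NStrE p (slam F w) Sr ((2 : ℝ) ^ (-(x₁ * X))) ε₂
  /-- the active direction and the static coordinates -/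
  st : ((1 + a) - δ) * X * Real.log 2 ≤
    CH p (fun ω => (Uni.dg X (fun ω => F.mx w c M ω i0) ω, dgv X (mxs F w c M sz) ω))
      (fun ω => (((dgv X (nuf F w c M i0 sr Sr) ω, dgv X (kaf F c M i0 sr Sr) ω),
        (Uni.dg X (fun ω => F.md c M ω i0) ω, dgv X (mds F c M sz) ω)),
        (G ω, (F.blb w c M ω, F.T ω))))
  /-- the rows of slope one across the own frame -/
  s1 : (s - δ) * X * Real.log 2 ≤ CH p (dgv X (nuf F w c M i0 ss Ss))
    (fun ω => ((Uni.dg X (fun ω => F.mx w c M ω i0) ω, (dgv X (mxs F w c M sz) ω,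
      dgv X (mxs F w c M sr) ω)), (G ω, (F.blb w c M ω, F.T ω))))

end defs

section aux

variable {Ω S T U V : Type} [Fintype Ω] {p : Ω → ℝ}

/-- Change of the variable and of the condition. -/
theorem CH_tr (hp : ∀ ω, 0 ≤ p ω) {N : Ω → S} {N' : Ω → T} {W : Ω → U} {W' : Ω → V} {c₁ c₂ : ℝ}
    (h1 : CH p N (fun ω => (N' ω, W' ω)) ≤ c₁) (h2 : CH p W' W ≤ c₂) :
    CH p N W ≤ CH p N' W' + (c₁ + c₂) := by
  have a1 := CH_le_add hp N W' W
  have a2 := CH_le_add hp N N' (fun ω => (W' ω, W ω))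
  have a3 : CH p N' (fun ω => (W' ω, W ω)) ≤ CH p N' W' :=
    CH_mono_cond hp fun _ _ _ _ e => (Prod.ext_iff.mp e).1
  have a4 : CH p N (fun ω => (N' ω, (W' ω, W ω))) ≤ CH p N (fun ω => (N' ω, W' ω)) := by
    refine CH_mono_cond hp ?_
    intro ω ω' _ _ e
    have e1 := Prod.ext_iff.mp e
    exact Prod.ext e1.1 (Prod.ext_iff.mp e1.2).1
  linarith

end aux

section main

variable {m J : ℕ} {F : Fam m J} {p : F.Ω → ℝ} {w : ℕ} {c : Fin m → ℕ}
  {M : F.Ω → Fin m → Fin m → ℝ} {i0 : Fin m} {a r s : ℕ} {sz : Fin a → Fin m}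
  {sr : Fin r → Fin m} {ss : Fin s → Fin m} {Sr : F.Ω → Fin r → ℝ} {Ss : F.Ω → Fin s → ℝ}
  {Γ : Type} {G : F.Ω → Γ} {X : ℕ} {K : ℝ}

/-- The vector of the positions of the rounded line. -/
noncomputable def ryv (F : Fam m J) (w : ℕ) (c : Fin m → ℕ) (M : F.Ω → Fin m → Fin m → ℝ) (X : ℕ)
    {n : ℕ} (s : Fin n → Fin m) (ω : F.Ω) (i : Fin n) : ℝ := rym F w c M X (s i) ω

theorem dg_rym {W' : Type} (hp : IsLaw p) {W : F.Ω → W'} (i : Fin m)
    (h : Det p W (Uni.dg X (fun ω => F.mx w c M ω i))) :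
    CH p (Uni.dg X (rym F w c M X i)) W ≤ Real.log 13 := by
  have key := CH_near hp (X := X) (x := rym F w c M X i) (W := W) (C := 5) (by
    intro ω ω' q q' e
    have e1 := dg_near (h ω ω' q q' e)
    have a1 := rym_near' (F := F) (w := w) (c := c) (M := M) (X := X) i ω
    have a2 := rym_near' (F := F) (w := w) (c := c) (M := M) (X := X) i ω'
    rw [abs_le] at e1 a1 a2 ⊢
    constructor <;> linarith [e1.1, e1.2, a1.1, a1.2, a2.1, a2.2])
  refine key.trans (le_of_eq ?_)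
  norm_num

theorem dg_mxr {W' : Type} (hp : IsLaw p) {W : F.Ω → W'} (i : Fin m)
    (h : Det p W (Uni.dg X (rym F w c M X i))) :
    CH p (Uni.dg X (fun ω => F.mx w c M ω i)) W ≤ Real.log 13 := by
  have key := CH_near hp (X := X) (x := fun ω => F.mx w c M ω i) (W := W) (C := 5) (by
    intro ω ω' q q' e
    have e1 := dg_near (h ω ω' q q' e)
    have a1 := rym_near' (F := F) (w := w) (c := c) (M := M) (X := X) i ω
    have a2 := rym_near' (F := F) (w := w) (c := c) (M := M) (X := X) i ω'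
    rw [abs_le] at e1 a1 a2 ⊢
    constructor <;> linarith [e1.1, e1.2, a1.1, a1.2, a2.1, a2.2])
  refine key.trans (le_of_eq ?_)
  norm_num

theorem dgv_ryv {W' : Type} (hp : IsLaw p) {W : F.Ω → W'} {n : ℕ} (s : Fin n → Fin m)
    (h : Det p W (dgv X (mxs F w c M s))) :
    CH p (dgv X (ryv F w c M X s)) W ≤ n * Real.log 13 := by
  have key := CH_nearw hp (X := X) (x := ryv F w c M X s) (W := W) (C := 5) (by
    intro ω ω' q q' e i
    have e1 : |(2 : ℝ) ^ X * F.mx w c M ω (s i) - 2 ^ X * F.mx w c M ω' (s i)| ≤ 1 :=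
      dgv_near (h ω ω' q q' e) i
    have a1 := rym_near' (F := F) (w := w) (c := c) (M := M) (X := X) (s i) ω
    have a2 := rym_near' (F := F) (w := w) (c := c) (M := M) (X := X) (s i) ω'
    show |(2 : ℝ) ^ X * rym F w c M X (s i) ω - 2 ^ X * rym F w c M X (s i) ω'| ≤ 5
    rw [abs_le] at e1 a1 a2 ⊢
    constructor <;> linarith [e1.1, e1.2, a1.1, a1.2, a2.1, a2.2])
  refine key.trans (le_of_eq ?_)
  norm_num

theorem dgv_mxr {W' : Type} (hp : IsLaw p) {W : F.Ω → W'} {n : ℕ} (s : Fin n → Fin m)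
    (h : Det p W (dgv X (ryv F w c M X s))) :
    CH p (dgv X (mxs F w c M s)) W ≤ n * Real.log 13 := by
  have key := CH_nearw hp (X := X) (x := mxs F w c M s) (W := W) (C := 5) (by
    intro ω ω' q q' e i
    have e1 : |(2 : ℝ) ^ X * rym F w c M X (s i) ω - 2 ^ X * rym F w c M X (s i) ω'| ≤ 1 :=
      dgv_near (h ω ω' q q' e) i
    have a1 := rym_near' (F := F) (w := w) (c := c) (M := M) (X := X) (s i) ω
    have a2 := rym_near' (F := F) (w := w) (c := c) (M := M) (X := X) (s i) ω'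
    show |(2 : ℝ) ^ X * F.mx w c M ω (s i) - 2 ^ X * F.mx w c M ω' (s i)| ≤ 5
    rw [abs_le] at e1 a1 a2 ⊢
    constructor <;> linarith [e1.1, e1.2, a1.1, a1.2, a2.1, a2.2])
  refine key.trans (le_of_eq ?_)
  norm_num

/-- The rows across the own frame of the rounded line. -/
theorem dgv_nur {W' : Type} (hp : IsLaw p) {W : F.Ω → W'} {n : ℕ} (s : Fin n → Fin m)
    {S : F.Ω → Fin n → ℝ} (hK : 0 ≤ K) (hS : ∀ ω, 0 < p ω → ∀ i, |S ω i| ≤ K)
    (h : Det p W (dgv X (nuf F w c M i0 s S))) :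
    CH p (dgv X (fun ω i => ryv F w c M X s ω i - S ω i * rym F w c M X i0 ω)) W ≤
      n * Real.log (8 * K + 13) := by
  have key := CH_nearw hp (X := X)
    (x := fun ω i => ryv F w c M X s ω i - S ω i * rym F w c M X i0 ω) (W := W)
    (C := 4 * K + 5) (by
    intro ω ω' q q' e i
    have e1 : |(2 : ℝ) ^ X * nuf F w c M i0 s S ω i - 2 ^ X * nuf F w c M i0 s S ω' i| ≤ 1 :=
      dgv_near (h ω ω' q q' e) i
    have one : ∀ ω, 0 < p ω → |(2 : ℝ) ^ X * (ryv F w c M X s ω i - S ω i * rym F w c M X i0 ω) -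
        2 ^ X * nuf F w c M i0 s S ω i| ≤ 2 + K * 2 := by
      intro ω q
      have a1 := rym_near' (F := F) (w := w) (c := c) (M := M) (X := X) (s i) ω
      have a2 := rym_near' (F := F) (w := w) (c := c) (M := M) (X := X) i0 ω
      have e : (2 : ℝ) ^ X * (ryv F w c M X s ω i - S ω i * rym F w c M X i0 ω) -
          2 ^ X * nuf F w c M i0 s S ω i =
          (2 ^ X * rym F w c M X (s i) ω - 2 ^ X * F.mx w c M ω (s i)) +
          -(S ω i * (2 ^ X * rym F w c M X i0 ω - 2 ^ X * F.mx w c M ω i0)) := by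
        unfold ryv nuf
        ring
      rw [e]
      have a3 : |-(S ω i * (2 ^ X * rym F w c M X i0 ω - 2 ^ X * F.mx w c M ω i0))| ≤ K * 2 := by
        rw [abs_neg, abs_mul]
        exact mul_le_mul (hS ω q i) a2 (abs_nonneg _) hK
      refine (abs_add_le _ _).trans ?_
      linarith
    have b1 := one ω q
    have b2 := one ω' q'
    rw [abs_le] at e1 b1 b2 ⊢
    constructor <;> linarith [e1.1, e1.2, b1.1, b1.2, b2.1, b2.2])
  refine key.trans (le_of_eq ?_)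
  congr 2
  ring

/-- The velocity across the own frame of the rounded line. -/
theorem dgv_kar {W' : Type} (hp : IsLaw p) {W : F.Ω → W'} {n : ℕ} (s : Fin n → Fin m)
    {S : F.Ω → Fin n → ℝ} (hK : 0 ≤ K) (hS : ∀ ω, 0 < p ω → ∀ i, |S ω i| ≤ K)
    (h : Det p W (dgv X (kaf F c M i0 s S))) :
    CH p (dgv X (fun ω i => rmd F c M X 0 (s i) ω - S ω i * rmd F c M X 0 i0 ω)) W ≤
      n * Real.log (8 * K + 13) := by
  have key := CH_nearw hp (X := X)
    (x := fun ω i => rmd F c M X 0 (s i) ω - S ω i * rmd F c M X 0 i0 ω) (W := W)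
    (C := 4 * K + 5) (by
    intro ω ω' q q' e i
    have e1 : |(2 : ℝ) ^ X * kaf F c M i0 s S ω i - 2 ^ X * kaf F c M i0 s S ω' i| ≤ 1 :=
      dgv_near (h ω ω' q q' e) i
    have h2 : (0 : ℝ) < 2 ^ X := by positivity
    have nr : ∀ j ω, |(2 : ℝ) ^ X * rmd F c M X 0 j ω - 2 ^ X * F.md c M ω j| ≤ 1 := by
      intro j ω
      have a1 := rmd_near' (F := F) (c := c) (M := M) (X := X) j ω
      rw [← mul_sub, abs_mul, abs_of_pos h2]
      calc (2 : ℝ) ^ X * |rmd F c M X 0 j ω - F.md c M ω j| ≤ 2 ^ X * (1 / 2 ^ X) :=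
            mul_le_mul_of_nonneg_left a1 h2.le
        _ = 1 := by field_simp
    have one : ∀ ω, 0 < p ω → |(2 : ℝ) ^ X * (rmd F c M X 0 (s i) ω - S ω i * rmd F c M X 0 i0 ω) -
        2 ^ X * kaf F c M i0 s S ω i| ≤ 1 + K * 1 := by
      intro ω q
      have a1 := nr (s i) ω
      have a2 := nr i0 ω
      have e : (2 : ℝ) ^ X * (rmd F c M X 0 (s i) ω - S ω i * rmd F c M X 0 i0 ω) -
          2 ^ X * kaf F c M i0 s S ω i =
          (2 ^ X * rmd F c M X 0 (s i) ω - 2 ^ X * F.md c M ω (s i)) +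
          -(S ω i * (2 ^ X * rmd F c M X 0 i0 ω - 2 ^ X * F.md c M ω i0)) := by
        unfold kaf
        ring
      rw [e]
      have a3 : |-(S ω i * (2 ^ X * rmd F c M X 0 i0 ω - 2 ^ X * F.md c M ω i0))| ≤ K * 1 := by
        rw [abs_neg, abs_mul]
        exact mul_le_mul (hS ω q i) a2 (abs_nonneg _) hK
      refine (abs_add_le _ _).trans ?_
      linarith
    have b1 := one ω q
    have b2 := one ω' q'
    rw [abs_le] at e1 b1 b2 ⊢
    constructor <;> linarith [e1.1, e1.2, b1.1, b1.2, b2.1, b2.2])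
  refine key.trans (le_of_eq ?_)
  congr 2
  ring

/-- The rows of slope one. -/
theorem dgv_nus {W' : Type} (hp : IsLaw p) {W : F.Ω → W'} {n : ℕ} (s : Fin n → Fin m)
    {S : F.Ω → Fin n → ℝ} (hK : 0 ≤ K) (hS : ∀ ω, 0 < p ω → ∀ i, |S ω i| ≤ K)
    (h : Det p W (dgv X (fun ω i => mxs F w c M s ω i - S ω i * rym F w c M X i0 ω))) :
    CH p (dgv X (nuf F w c M i0 s S)) W ≤ n * Real.log (8 * K + 13) := by
  have key := CH_nearw hp (X := X) (x := nuf F w c M i0 s S) (W := W) (C := 4 * K + 5) (by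
    intro ω ω' q q' e i
    have e1 : |(2 : ℝ) ^ X * (F.mx w c M ω (s i) - S ω i * rym F w c M X i0 ω) -
        2 ^ X * (F.mx w c M ω' (s i) - S ω' i * rym F w c M X i0 ω')| ≤ 1 :=
      dgv_near (h ω ω' q q' e) i
    have one : ∀ ω, 0 < p ω → |(2 : ℝ) ^ X * (F.mx w c M ω (s i) - S ω i * rym F w c M X i0 ω) -
        2 ^ X * nuf F w c M i0 s S ω i| ≤ K * 2 := by
      intro ω q
      have a2 := rym_near' (F := F) (w := w) (c := c) (M := M) (X := X) i0 ω
      have e : (2 : ℝ) ^ X * (F.mx w c M ω (s i) - S ω i * rym F w c M X i0 ω) -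
          2 ^ X * nuf F w c M i0 s S ω i =
          -(S ω i * (2 ^ X * rym F w c M X i0 ω - 2 ^ X * F.mx w c M ω i0)) := by
        unfold nuf
        ring
      rw [e, abs_neg, abs_mul]
      exact mul_le_mul (hS ω q i) a2 (abs_nonneg _) hK
    have b1 := one ω q
    have b2 := one ω' q'
    rw [abs_le] at e1 b1 b2 ⊢
    constructor <;> linarith [e1.1, e1.2, b1.1, b1.2, b2.1, b2.2])
  refine key.trans (le_of_eq ?_)
  congr 2
  ring

/-- The pure data. -/
theorem FfD.toFF (hd : FfD F p w c M Sr Ss G K) (hK : 0 ≤ K) (i0 : Fin m) (sz : Fin a → Fin m)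
    (sr : Fin r → Fin m) (X : ℕ) :
    FFDat a r s (K + 2) p (F.blb w c M) (F.lbr w c M X) G (slam F w) F.T
      (rmu F w c M X 0 i0) (rmd F c M X 0 i0) (fun ω i => rmu F w c M X 0 (sz i) ω)
      (fun ω i => rmd F c M X 0 (sz i) ω) (fun ω i => rmu F w c M X 0 (sr i) ω)
      (fun ω i => rmd F c M X 0 (sr i) ω) (F.wt w) Sr Ss (rym F w c M X i0)
      (ryv F w c M X sz) (ryv F w c M X sr) := by
  have dmu : ∀ i, Det p (fun ω => (F.blb w c M ω, F.lbr w c M X ω)) (rmu F w c M X 0 i) :=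
    fun i ω ω' _ _ e => by
      have h := (lbr_dig le_rfl (Prod.ext_iff.mp e).2 i).1
      unfold rmu S6U.rd
      rw [h]
  have dmd : ∀ i, Det p (fun ω => (F.blb w c M ω, F.lbr w c M X ω)) (rmd F c M X 0 i) :=
    fun i ω ω' _ _ e => by
      have h := (lbr_dig le_rfl (Prod.ext_iff.mp e).2 i).2
      unfold rmd S6U.rd
      rw [h]
  have sle : ∀ {ω ω'}, 0 < p ω → 0 < p ω' → slam F w ω = slam F w ω' →
      F.blb w c M ω = F.blb w c M ω' ∧ F.lbr w c M X ω = F.lbr w c M X ω' := by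
    intro ω ω' h1 h2 e
    have hM : M ω = M ω' := hd.dM ω ω' h1 h2 e
    have hl : F.l ω = F.l ω' := (Prod.ext_iff.mp e).1
    have h3 := Prod.ext_iff.mp (Prod.ext_iff.mp e).2
    have hZ : F.Z ω = F.Z ω' := h3.1
    have hT : F.T1 w ω = F.T1 w ω' := h3.2
    have k := Box.label_det F (g := w) (k := fun i => c i + w) (c := c) hl hT hM hZ
    have k' := Box.label_det F (g := w) (k := fun i => c i + X + w) (c := fun i => c i + X) hl hT
      hM hZ
    exact ⟨k.1, k'.1⟩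
  have bd : ∀ i ω, |rym F w c M X i ω| ≤ K + 2 := by
    intro i ω
    have a1 : 0 ≤ rmu F w c M X 0 i ω ∧ rmu F w c M X 0 i ω < 1 := rd_mem _ _ _
    have a2 : 0 ≤ rmd F c M X 0 i ω ∧ rmd F c M X 0 i ω < 1 := rd_mem _ _ _
    have t0 := Lab.wt_mem F w ω
    unfold rym
    have k1 : 0 ≤ F.wt w ω * rmd F c M X 0 i ω ∧ F.wt w ω * rmd F c M X 0 i ω ≤ 1 :=
      ⟨mul_nonneg t0.1 a2.1, mul_le_one₀ t0.2.le a2.1 a2.2.le⟩
    rw [abs_le]
    constructor <;> linarith [a1.1, a1.2, k1.1, k1.2]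
  refine ⟨⟨hd.law, fun ω ω' h1 h2 e => (sle h1 h2 e).1, fun ω ω' h1 h2 e => (sle h1 h2 e).2,
    dmu i0, dmd i0, fun ω ω' q q' e => funext fun i => dmu _ ω ω' q q' e,
    fun ω ω' q q' e => funext fun i => dmd _ ω ω' q q' e,
    fun ω ω' _ _ e => wt_det (Prod.ext_iff.mp e).2, hd.dSr, fun ω _ => Lab.wt_mem F w ω, ?_,
    fun ω _ => bd i0 ω, ⟨fun _ => 0, fun _ _ _ _ _ => rfl, fun ω _ => ?_⟩,
    ⟨fun _ _ => 0, fun _ _ _ _ _ => rfl, fun ω _ i => ?_⟩⟩,
    fun ω ω' q q' e => funext fun i => dmu _ ω ω' q q' e,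
    fun ω ω' q q' e => funext fun i => dmd _ ω ω' q q' e,
    ⟨fun _ _ => 0, fun _ _ _ _ _ => rfl, fun ω _ i => ?_⟩, fun ω _ i => bd (sz i) ω, hd.dSs, ?_⟩
  · intro ω h i
    have := hd.hSr ω h i
    linarith
  · simp only [rym, add_zero]
  · simp only [ryv, rym, add_zero]
  · simp only [ryv, rym, add_zero]
  · intro ω h i
    have := hd.hSs ω h i
    linarith

end main

/-- **The flat micro row at one natural box.** -/
theorem ffam (a r s : ℕ) (ε K : ℝ) (hε : 0 < ε) (hK : 0 ≤ K) :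
    ∃ (x₁ ε₂ ι : ℝ) (X₀ : ℕ), 0 < x₁ ∧ 0 < ε₂ ∧ 0 < ι ∧
    ∀ (m J : ℕ) (F : Fam m J) (p : F.Ω → ℝ) (w : ℕ) (c : Fin m → ℕ)
      (M : F.Ω → Fin m → Fin m → ℝ) (i0 : Fin m) (sz : Fin a → Fin m) (sr : Fin r → Fin m)
      (ss : Fin s → Fin m) (Sr : F.Ω → Fin r → ℝ) (Ss : F.Ω → Fin s → ℝ) (Γ : Type) (G : F.Ω → Γ)
      (X : ℕ) (δ : ℝ), X₀ ≤ X → FfD F p w c M Sr Ss G K →
      FfH F p w c M i0 sz sr ss Sr Ss G X x₁ ε₂ ι δ →
      ((1 + a + r + s) - (ε + (r + 3) * δ)) * X * Real.log 2 ≤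
        CH p (fun ω => ((Uni.dg X (fun ω => F.mx w c M ω i0) ω, dgv X (mxs F w c M sz) ω),
          (dgv X (mxs F w c M sr) ω, dgv X (mxs F w c M ss) ω)))
          (fun ω => (F.blb w c M ω, F.T ω)) ∧
      ((1 + a + r + s) - (ε + (r + 3) * δ)) * X * Real.log 2 ≤
        CH p (fun ω => ((Uni.dg X (fun ω => F.mx w c M ω i0) ω, dgv X (mxs F w c M sz) ω),
          (dgv X (mxs F w c M sr) ω, dgv X (mxs F w c M ss) ω)))
          (fun ω => (G ω, (F.blb w c M ω, F.T ω))) := by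
  have l2 : 0 < Real.log 2 := Real.log_pos (by norm_num)
  have l13 : 0 ≤ Real.log 13 := Real.log_nonneg (by norm_num)
  have lK : 0 ≤ Real.log (8 * K + 13) := Real.log_nonneg (by linarith)
  have ha0 : (0 : ℝ) ≤ a := Nat.cast_nonneg a
  have hr0 : (0 : ℝ) ≤ r := Nat.cast_nonneg r
  have hs0 : (0 : ℝ) ≤ s := Nat.cast_nonneg s
  obtain ⟨C, hC⟩ : ∃ C : ℝ, C = (1 + a + r) * Real.log 13 + (2 * r + s) * Real.log (8 * K + 13) :=
    ⟨_, rfl⟩
  have hC0 : 0 ≤ C := by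
    rw [hC]
    positivity
  obtain ⟨x₁, ε₂, ι, n₀, hx₁, hε₂, hι, hf⟩ := ffull a r s (ε / 2) (K + 2) (by positivity)
    (by linarith)
  obtain ⟨n₁, hn₁⟩ := exists_nat_ge (2 * ((r + 4) * C) / (ε * Real.log 2))
  refine ⟨x₁, ε₂, ι, n₀ + n₁ + 1, hx₁, hε₂, hι, ?_⟩
  intro m J F p w c M i0 sz sr ss Sr Ss Γ G X δ hX hd hh
  have hl := hd.law
  have hp := hl.nonneg
  have hX1 : (n₁ : ℝ) ≤ X := by exact_mod_cast (by omega : n₁ ≤ X)
  have hX0 : (0 : ℝ) ≤ X := Nat.cast_nonneg X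
  have k1 : 2 * ((r + 4) * C) ≤ ε * X * Real.log 2 := by
    have := (div_le_iff₀ (by positivity : (0 : ℝ) < ε * Real.log 2)).1 (hn₁.trans hX1)
    linarith
  -- names
  obtain ⟨N0, hN0⟩ : ∃ N0, N0 = Uni.dg X (fun ω => F.mx w c M ω i0) := ⟨_, rfl⟩
  obtain ⟨R0, hR0⟩ : ∃ R0, R0 = Uni.dg X (rym F w c M X i0) := ⟨_, rfl⟩
  obtain ⟨Nz, hNz⟩ : ∃ Nz, Nz = dgv X (mxs F w c M sz) := ⟨_, rfl⟩
  obtain ⟨Rz, hRz⟩ : ∃ Rz, Rz = dgv X (ryv F w c M X sz) := ⟨_, rfl⟩
  obtain ⟨Nr, hNr⟩ : ∃ Nr, Nr = dgv X (mxs F w c M sr) := ⟨_, rfl⟩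
  obtain ⟨Rr, hRr⟩ : ∃ Rr, Rr = dgv X (ryv F w c M X sr) := ⟨_, rfl⟩
  obtain ⟨Ns, hNs⟩ : ∃ Ns, Ns = dgv X (mxs F w c M ss) := ⟨_, rfl⟩
  -- the condition of the static block
  have q1 : CH p (fun ω => (N0 ω, Nz ω))
      (fun ω => (((dgv X (nuf F w c M i0 sr Sr) ω, dgv X (kaf F c M i0 sr Sr) ω),
        (Uni.dg X (fun ω => F.md c M ω i0) ω, dgv X (mds F c M sz) ω)),
        (G ω, (F.blb w c M ω, F.T ω)))) ≤
      CH p (fun ω => (R0 ω, Rz ω))
        (fun ω => (((dgv X (fun ω i => ryv F w c M X sr ω i - Sr ω i * rym F w c M X i0 ω) ω,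
          dgv X (fun ω i => rmd F c M X 0 (sr i) ω - Sr ω i * rmd F c M X 0 i0 ω) ω),
          (Uni.dg X (rmd F c M X 0 i0) ω, dgv X (fun ω i => rmd F c M X 0 (sz i) ω) ω)),
          (G ω, (F.blb w c M ω, F.T ω)))) +
        ((Real.log 13 + a * Real.log 13) + (r * Real.log (8 * K + 13) +
          r * Real.log (8 * K + 13))) := by
    refine CH_tr hp ?_ ?_
    · refine CH_pair_le hp _ _ _ ?_ ?_
      · rw [hN0]
        refine dg_mxr hl i0 ?_
        rw [← hR0]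
        exact fun ω ω' _ _ e => (Prod.ext_iff.mp (Prod.ext_iff.mp e).1).1
      · rw [hNz]
        refine dgv_mxr hl sz ?_
        rw [← hRz]
        exact fun ω ω' _ _ e => (Prod.ext_iff.mp (Prod.ext_iff.mp e).1).2
    · obtain ⟨W, hW⟩ : ∃ W, W = (fun ω => (((dgv X (nuf F w c M i0 sr Sr) ω,
        dgv X (kaf F c M i0 sr Sr) ω), (Uni.dg X (fun ω => F.md c M ω i0) ω,
        dgv X (mds F c M sz) ω)), (G ω, (F.blb w c M ω, F.T ω)))) := ⟨_, rfl⟩
      rw [← hW]
      have m1 : Det p (fun ω => ((dgv X (fun ω i => ryv F w c M X sr ω i -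
            Sr ω i * rym F w c M X i0 ω) ω,
          dgv X (fun ω i => rmd F c M X 0 (sr i) ω - Sr ω i * rmd F c M X 0 i0 ω) ω), W ω))
          (fun ω => (((dgv X (fun ω i => ryv F w c M X sr ω i - Sr ω i * rym F w c M X i0 ω) ω,
          dgv X (fun ω i => rmd F c M X 0 (sr i) ω - Sr ω i * rmd F c M X 0 i0 ω) ω),
          (Uni.dg X (rmd F c M X 0 i0) ω, dgv X (fun ω i => rmd F c M X 0 (sz i) ω) ω)),
          (G ω, (F.blb w c M ω, F.T ω)))) := by
        intro ω ω' _ _ e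
        rw [hW] at e
        have e1 := Prod.ext_iff.mp e
        have e2 := Prod.ext_iff.mp e1.2
        have e3 := Prod.ext_iff.mp (Prod.ext_iff.mp e2.1).2
        have e4 : Uni.dg X (rmd F c M X 0 i0) ω = Uni.dg X (rmd F c M X 0 i0) ω' := by
          rw [dg_rmd (by omega)]
          exact e3.1
        have e5 : dgv X (fun ω i => rmd F c M X 0 (sz i) ω) ω =
            dgv X (fun ω i => rmd F c M X 0 (sz i) ω) ω' := by
          funext i
          have e6 : dgv X (mds F c M sz) ω i = dgv X (mds F c M sz) ω' i := congrFun e3.2 i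
          show Uni.dg X (rmd F c M X 0 (sz i)) ω = Uni.dg X (rmd F c M X 0 (sz i)) ω'
          rw [dg_rmd (by omega)]
          exact e6
        exact Prod.ext (Prod.ext e1.1 (Prod.ext e4 e5)) e2.2
      refine (CH_mono_left hp m1).trans (CH_pair_le hp _ _ _ ?_ ?_)
      · refine dgv_nur hl sr hK hd.hSr ?_
        rw [hW]
        exact fun ω ω' _ _ e => (Prod.ext_iff.mp (Prod.ext_iff.mp (Prod.ext_iff.mp e).1).1).1
      · refine dgv_kar hl sr hK hd.hSr ?_
        rw [hW]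
        exact fun ω ω' _ _ e => (Prod.ext_iff.mp (Prod.ext_iff.mp (Prod.ext_iff.mp e).1).1).2
  -- the rows of slope one
  have q2 : CH p (dgv X (nuf F w c M i0 ss Ss))
      (fun ω => ((N0 ω, (Nz ω, Nr ω)), (G ω, (F.blb w c M ω, F.T ω)))) ≤
      CH p (dgv X (fun ω i => mxs F w c M ss ω i - Ss ω i * rym F w c M X i0 ω))
        (fun ω => ((R0 ω, (Rz ω, Rr ω)), (G ω, (F.blb w c M ω, F.T ω)))) +
      (s * Real.log (8 * K + 13) + (Real.log 13 + (a * Real.log 13 + r * Real.log 13))) := by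
    refine CH_tr hp ?_ ?_
    · refine dgv_nus hl ss hK hd.hSs ?_
      exact fun ω ω' _ _ e => (Prod.ext_iff.mp e).1
    · have m1 : Det p (fun ω => ((R0 ω, (Rz ω, Rr ω)), ((N0 ω, (Nz ω, Nr ω)),
          (G ω, (F.blb w c M ω, F.T ω)))))
          (fun ω => ((R0 ω, (Rz ω, Rr ω)), (G ω, (F.blb w c M ω, F.T ω)))) := by
        intro ω ω' _ _ e
        have e1 := Prod.ext_iff.mp e
        exact Prod.ext e1.1 (Prod.ext_iff.mp e1.2).2
      refine (CH_mono_left hp m1).trans (CH_pair_le hp _ _ _ ?_ (CH_pair_le hp _ _ _ ?_ ?_))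
      · rw [hR0]
        refine dg_rym hl i0 ?_
        rw [← hN0]
        exact fun ω ω' _ _ e => (Prod.ext_iff.mp (Prod.ext_iff.mp e).1).1
      · rw [hRz]
        refine dgv_ryv hl sz ?_
        rw [← hNz]
        exact fun ω ω' _ _ e => (Prod.ext_iff.mp (Prod.ext_iff.mp (Prod.ext_iff.mp e).1).2).1
      · rw [hRr]
        refine dgv_ryv hl sr ?_
        rw [← hNr]
        exact fun ω ω' _ _ e => (Prod.ext_iff.mp (Prod.ext_iff.mp (Prod.ext_iff.mp e).1).2).2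
  -- the conclusion for the rounded line
  have hX2 : (0 : ℝ) < X := by exact_mod_cast (by omega : 0 < X)
  obtain ⟨δ', hδ'⟩ : ∃ δ' : ℝ, δ' * X * Real.log 2 = δ * X * Real.log 2 + C := by
    refine ⟨δ + C / (X * Real.log 2), ?_⟩
    field_simp
  have g1 : (1 + a + r) * Real.log 13 ≤ C := by
    rw [hC]
    have : 0 ≤ (2 * r + s : ℝ) * Real.log (8 * K + 13) := by positivity
    linarith
  have h1 : ((1 + a) - δ') * X * Real.log 2 ≤
      CH p (fun ω => (R0 ω, Rz ω))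
        (fun ω => (((dgv X (fun ω i => ryv F w c M X sr ω i - Sr ω i * rym F w c M X i0 ω) ω,
          dgv X (fun ω i => rmd F c M X 0 (sr i) ω - Sr ω i * rmd F c M X 0 i0 ω) ω),
          (Uni.dg X (rmd F c M X 0 i0) ω, dgv X (fun ω i => rmd F c M X 0 (sz i) ω) ω)),
          (G ω, (F.blb w c M ω, F.T ω)))) := by
    have e1 : ((1 + a : ℝ) - δ') * X * Real.log 2 = ((1 + a) - δ) * X * Real.log 2 - C := by
      rw [sub_mul, sub_mul, hδ']
      ring
    have e2 := hh.st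
    rw [← hN0, ← hNz] at e2
    have e3 : (Real.log 13 + a * Real.log 13) + (r * Real.log (8 * K + 13) +
        r * Real.log (8 * K + 13)) ≤ C := by
      rw [hC]
      have f1 : 0 ≤ r * Real.log 13 := by positivity
      have f2 : 0 ≤ s * Real.log (8 * K + 13) := by positivity
      linarith
    rw [e1]
    linarith
  have h2 : (s - δ') * X * Real.log 2 ≤
      CH p (dgv X (fun ω i => mxs F w c M ss ω i - Ss ω i * rym F w c M X i0 ω))
        (fun ω => ((R0 ω, (Rz ω, Rr ω)), (G ω, (F.blb w c M ω, F.T ω)))) := by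
    have e1 : ((s : ℝ) - δ') * X * Real.log 2 = (s - δ) * X * Real.log 2 - C := by
      rw [sub_mul, sub_mul, hδ']
      ring
    have e2 := hh.s1
    rw [← hN0, ← hNz, ← hNr] at e2
    have e3 : s * Real.log (8 * K + 13) + (Real.log 13 + (a * Real.log 13 + r * Real.log 13)) ≤
        C := by
      rw [hC]
      have f2 : 0 ≤ r * Real.log (8 * K + 13) := by positivity
      linarith
    rw [e1]
    linarith
  rw [hR0, hRz] at h1
  rw [hR0, hRz, hRr] at h2
  have h3 := hf F.Ω _ _ Γ _ _ p _ _ G _ _ _ _ _ _ _ _ _ Sr Ss _ _ _ (mxs F w c M ss) X δ'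
    (hd.toFF hK i0 sz sr X) (by omega) hh.tm hh.th h1 h2
  rw [← hR0, ← hRz, ← hRr, ← hNs] at h3
  -- back to the line
  have tr : ∀ {U' : Type} (U : F.Ω → U'),
      ((1 + a + r + s) - (ε / 2 + (r + 3) * δ')) * X * Real.log 2 ≤
        CH p (fun ω => ((R0 ω, Rz ω), (Rr ω, Ns ω))) U →
      ((1 + a + r + s) - (ε + (r + 3) * δ)) * X * Real.log 2 ≤
        CH p (fun ω => ((N0 ω, Nz ω), (Nr ω, Ns ω))) U := by
    intro U' U h
    have b1 := CH_le_add hp (fun ω => ((R0 ω, Rz ω), (Rr ω, Ns ω)))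
      (fun ω => ((N0 ω, Nz ω), (Nr ω, Ns ω))) U
    have b2 : CH p (fun ω => ((R0 ω, Rz ω), (Rr ω, Ns ω)))
        (fun ω => (((N0 ω, Nz ω), (Nr ω, Ns ω)), U ω)) ≤ (1 + a + r) * Real.log 13 := by
      have c1 : CH p Ns (fun ω => (((N0 ω, Nz ω), (Nr ω, Ns ω)), U ω)) = 0 :=
        CH_eq_zero hp fun ω ω' _ _ e =>
          (Prod.ext_iff.mp (Prod.ext_iff.mp (Prod.ext_iff.mp e).1).2).2
      have c2 := CH_pair_le hp (fun ω => (R0 ω, Rz ω)) (fun ω => (Rr ω, Ns ω))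
        (fun ω => (((N0 ω, Nz ω), (Nr ω, Ns ω)), U ω))
        (CH_pair_le hp R0 Rz _ (a := Real.log 13) (b := a * Real.log 13) ?_ ?_)
        (CH_pair_le hp Rr Ns _ (a := r * Real.log 13) (b := 0) ?_ c1.le)
      · refine c2.trans (le_of_eq ?_)
        ring
      · rw [hR0]
        refine dg_rym hl i0 ?_
        rw [← hN0]
        exact fun ω ω' _ _ e => (Prod.ext_iff.mp (Prod.ext_iff.mp (Prod.ext_iff.mp e).1).1).1
      · rw [hRz]
        refine dgv_ryv hl sz ?_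
        rw [← hNz]
        exact fun ω ω' _ _ e => (Prod.ext_iff.mp (Prod.ext_iff.mp (Prod.ext_iff.mp e).1).1).2
      · rw [hRr]
        refine dgv_ryv hl sr ?_
        rw [← hNr]
        exact fun ω ω' _ _ e => (Prod.ext_iff.mp (Prod.ext_iff.mp (Prod.ext_iff.mp e).1).2).1
    have b3 : ((1 + a + r + s : ℝ) - (ε / 2 + (r + 3) * δ')) * X * Real.log 2 =
        ((1 + a + r + s) - (ε / 2 + (r + 3) * δ)) * X * Real.log 2 - (r + 3) * C := by
      have : (r + 3 : ℝ) * δ' * X * Real.log 2 = (r + 3) * (δ' * X * Real.log 2) := by ring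
      have e : ((1 + a + r + s : ℝ) - (ε / 2 + (r + 3) * δ')) * X * Real.log 2 =
        (1 + a + r + s - ε / 2) * X * Real.log 2 - (r + 3) * (δ' * X * Real.log 2) := by ring
      rw [e, hδ']
      ring
    have b4 : ((1 + a + r + s : ℝ) - (ε + (r + 3) * δ)) * X * Real.log 2 =
        ((1 + a + r + s) - (ε / 2 + (r + 3) * δ)) * X * Real.log 2 -
        ε * X * Real.log 2 / 2 := by ring
    rw [b3] at h
    rw [b4]
    have b5 : (r + 3) * C + C ≤ ε * X * Real.log 2 / 2 := by linarith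
    linarith
  rw [← hN0, ← hNz, ← hNr, ← hNs]
  exact ⟨tr _ h3.1, tr _ h3.2⟩

end Pool.KG
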