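import Pool.Agent.H68.KG.Sm

/-!
# Natural fullness at a flat context, all kinds of passive coordinates

`ffull` (pure): `y` is the position along the active direction, `mz` the static passive coordinates,
`mr` the passive coordinates whose frames turn with the window, `ms` the passive coordinates of slope
exactly one. If `(y, mz)` is full given the rows and the velocity across the own frame of `mr` and the
rows of `ms` across the own frame are full given all the others, then the whole position is full.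
-/

set_option autoImplicit false

namespace Pool.KG

open Finset Real
open Pool.Agent.H49.Ent Pool.Agent.H32.Dense Pool.STK Pool.KA Pool.PRM Pool.KVA Pool.M5 Pool.K2S
open Pool.S6U Pool.PLV

/-- The data at a flat context. -/
structure FFDat {Ω β Λ' γ Λ Θ : Type} [Fintype Ω] (a r s : ℕ) (K : ℝ) (p : Ω → ℝ) (b : Ω → β)
    (L : Ω → Λ') (G : Ω → γ) (sl : Ω → Λ) (T : Ω → Θ) (y0 om : Ω → ℝ) (z0 bz : Ω → Fin a → ℝ)
    (r0 br : Ω → Fin r → ℝ) (th : Ω → ℝ) (Sr : Ω → Fin r → ℝ) (Ss : Ω → Fin s → ℝ) (y : Ω → ℝ)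
    (mz : Ω → Fin a → ℝ) (mr : Ω → Fin r → ℝ) : Prop where
  sv : SVDat r K p b L G sl T y0 om r0 br th Sr y mr
  dz0 : Det p (fun ω => (b ω, L ω)) z0
  dbz : Det p (fun ω => (b ω, L ω)) bz
  hmz : ∃ k : Ω → Fin a → ℝ, Det p (fun ω => (b ω, T ω)) k ∧
    ∀ ω, 0 < p ω → ∀ i, mz ω i = z0 ω i + th ω * bz ω i + k ω i
  hmb : ∀ ω, 0 < p ω → ∀ i, |mz ω i| ≤ K
  dSs : Det p (fun ω => (b ω, G ω)) Ss
  hSs : ∀ ω, 0 < p ω → ∀ i, |Ss ω i| ≤ K

section pre

variable {Ω β Λ' γ Λ Θ : Type} [Fintype Ω] {a r s : ℕ} {K : ℝ} {p : Ω → ℝ} {b : Ω → β}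
    {L : Ω → Λ'} {G : Ω → γ} {sl : Ω → Λ} {T : Ω → Θ} {y0 om : Ω → ℝ} {z0 bz : Ω → Fin a → ℝ}
    {r0 br : Ω → Fin r → ℝ} {th : Ω → ℝ} {Sr : Ω → Fin r → ℝ} {Ss : Ω → Fin s → ℝ} {y : Ω → ℝ}
    {mz : Ω → Fin a → ℝ} {mr : Ω → Fin r → ℝ}

/-- The digits of a bounded number. -/
theorem CH_dg_le {W' : Type} (hp : IsLaw p) {X : ℕ} {x : Ω → ℝ} (hK : 0 ≤ K)
    (h : ∀ ω, 0 < p ω → |x ω| ≤ K) (W : Ω → W') :
    CH p (Uni.dg X x) W ≤ X * Real.log 2 + Real.log (4 * K + 3) := by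
  have h1 : (1 : ℝ) ≤ 2 ^ X := one_le_pow₀ (by norm_num)
  have key := CH_near hp (X := X) (x := x) (W := W) (C := 2 * K * 2 ^ X) (by
    intro ω ω' q q' _
    have e1 := h ω q
    have e2 := h ω' q'
    rw [← mul_sub, abs_mul, abs_of_pos (by positivity : (0 : ℝ) < 2 ^ X)]
    have e3 : |x ω - x ω'| ≤ 2 * K := by
      rw [abs_le] at e1 e2 ⊢
      constructor <;> linarith [e1.1, e1.2, e2.1, e2.2]
    calc (2 : ℝ) ^ X * |x ω - x ω'| ≤ 2 ^ X * (2 * K) := mul_le_mul_of_nonneg_left e3 (by positivity)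
      _ = 2 * K * 2 ^ X := by ring)
  have h2 : 2 * (2 * K * 2 ^ X) + 3 ≤ 2 ^ X * (4 * K + 3) := by nlinarith
  have h3 : (0 : ℝ) < 2 * (2 * K * 2 ^ X) + 3 := by positivity
  refine key.trans ((Real.log_le_log h3 h2).trans (le_of_eq ?_))
  rw [Real.log_mul (by positivity) (by positivity), Real.log_pow]

/-- The digits of a bounded vector. -/
theorem CH_dgv_le {W' : Type} (hp : IsLaw p) {n X : ℕ} {x : Ω → Fin n → ℝ} (hK : 0 ≤ K)
    (h : ∀ ω, 0 < p ω → ∀ i, |x ω i| ≤ K) (W : Ω → W') :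
    CH p (dgv X x) W ≤ n * (X * Real.log 2 + Real.log (4 * K + 3)) := by
  have h1 : (1 : ℝ) ≤ 2 ^ X := one_le_pow₀ (by norm_num)
  have key := CH_nearw hp (X := X) (x := x) (W := W) (C := 2 * K * 2 ^ X) (by
    intro ω ω' q q' _ i
    have e1 := h ω q i
    have e2 := h ω' q' i
    rw [← mul_sub, abs_mul, abs_of_pos (by positivity : (0 : ℝ) < 2 ^ X)]
    have e3 : |x ω i - x ω' i| ≤ 2 * K := by
      rw [abs_le] at e1 e2 ⊢
      constructor <;> linarith [e1.1, e1.2, e2.1, e2.2]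
    calc (2 : ℝ) ^ X * |x ω i - x ω' i| ≤ 2 ^ X * (2 * K) :=
        mul_le_mul_of_nonneg_left e3 (by positivity)
      _ = 2 * K * 2 ^ X := by ring)
  have h2 : 2 * (2 * K * 2 ^ X) + 3 ≤ 2 ^ X * (4 * K + 3) := by nlinarith
  have h3 : (0 : ℝ) < 2 * (2 * K * 2 ^ X) + 3 := by positivity
  refine key.trans (mul_le_mul_of_nonneg_left ((Real.log_le_log h3 h2).trans (le_of_eq ?_))
    (Nat.cast_nonneg n))
  rw [Real.log_mul (by positivity) (by positivity), Real.log_pow]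

/-- The position at time zero from the position, the velocity and the time. -/
theorem CH_z0 (hp : IsLaw p) {X : ℕ} {W' : Type} {W : Ω → W'} (dW : Det p W (fun ω => (b ω, T ω)))
    (dth : Det p (fun ω => (b ω, T ω)) th) (hth : ∀ ω, 0 < p ω → 0 ≤ th ω ∧ th ω < 1)
    (hmz : ∃ k : Ω → Fin a → ℝ, Det p (fun ω => (b ω, T ω)) k ∧
      ∀ ω, 0 < p ω → ∀ i, mz ω i = z0 ω i + th ω * bz ω i + k ω i)
    (h1 : Det p W (dgv X mz)) (h2 : Det p W (dgv X bz)) :
    CH p (dgv X z0) W ≤ a * Real.log 7 := by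
  obtain ⟨k, hk, ek⟩ := hmz
  have key := CH_nearw hp (X := X) (x := z0) (W := W) (C := 2) (by
    intro ω ω' q q' e i
    have e0 := dW ω ω' q q' e
    have e1 := dth ω ω' q q' e0
    have e2 := congrFun (hk ω ω' q q' e0) i
    have e3 := dgv_near (h1 ω ω' q q' e) i
    have e4 := dgv_near (h2 ω ω' q q' e) i
    have e5 := hth ω q
    have f1 := ek ω q i
    have f2 := ek ω' q' i
    have e : (2 : ℝ) ^ X * z0 ω i - 2 ^ X * z0 ω' i = (2 ^ X * mz ω i - 2 ^ X * mz ω' i) +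
        -(th ω * (2 ^ X * bz ω i - 2 ^ X * bz ω' i)) := by
      rw [f1, f2, ← e1, ← e2]
      ring
    rw [e]
    have e6 : |-(th ω * (2 ^ X * bz ω i - 2 ^ X * bz ω' i))| ≤ 1 * 1 := by
      rw [abs_neg, abs_mul, abs_of_nonneg e5.1]
      exact mul_le_mul e5.2.le e4 (abs_nonneg _) zero_le_one
    refine (abs_add_le _ _).trans ?_
    linarith)
  refine key.trans (le_of_eq ?_)
  norm_num

/-- The position from the position at time zero, the velocity and the time. -/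
theorem CH_mz (hp : IsLaw p) {X : ℕ} {W' : Type} {W : Ω → W'} (dW : Det p W (fun ω => (b ω, T ω)))
    (dth : Det p (fun ω => (b ω, T ω)) th) (hth : ∀ ω, 0 < p ω → 0 ≤ th ω ∧ th ω < 1)
    (hmz : ∃ k : Ω → Fin a → ℝ, Det p (fun ω => (b ω, T ω)) k ∧
      ∀ ω, 0 < p ω → ∀ i, mz ω i = z0 ω i + th ω * bz ω i + k ω i)
    (h1 : Det p W (dgv X z0)) (h2 : Det p W (dgv X bz)) :
    CH p (dgv X mz) W ≤ a * Real.log 7 := by
  obtain ⟨k, hk, ek⟩ := hmz
  have key := CH_nearw hp (X := X) (x := mz) (W := W) (C := 2) (by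
    intro ω ω' q q' e i
    have e0 := dW ω ω' q q' e
    have e1 := dth ω ω' q q' e0
    have e2 := congrFun (hk ω ω' q q' e0) i
    have e3 := dgv_near (h1 ω ω' q q' e) i
    have e4 := dgv_near (h2 ω ω' q q' e) i
    have e5 := hth ω q
    have f1 := ek ω q i
    have f2 := ek ω' q' i
    have e : (2 : ℝ) ^ X * mz ω i - 2 ^ X * mz ω' i = (2 ^ X * z0 ω i - 2 ^ X * z0 ω' i) +
        th ω * (2 ^ X * bz ω i - 2 ^ X * bz ω' i) := by
      rw [f1, f2, ← e1, ← e2]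
      ring
    rw [e]
    have e6 : |th ω * (2 ^ X * bz ω i - 2 ^ X * bz ω' i)| ≤ 1 * 1 := by
      rw [abs_mul, abs_of_nonneg e5.1]
      exact mul_le_mul e5.2.le e4 (abs_nonneg _) zero_le_one
    refine (abs_add_le _ _).trans ?_
    linarith)
  refine key.trans (le_of_eq ?_)
  norm_num

/-- The data with the static coordinates in the context. -/
theorem FFDat.toSV (hd : FFDat a r s K p b L G sl T y0 om z0 bz r0 br th Sr Ss y mz mr) (X : ℕ) :
    SVDat r K p (fun ω => ((dgv X z0 ω, dgv X bz ω), b ω)) L G sl T y0 om r0 br th Sr y mr := by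
  have h := hd.sv
  have e1 : ∀ {α : Type} {f : Ω → α}, Det p (fun ω => (b ω, L ω)) f →
      Det p (fun ω => (((dgv X z0 ω, dgv X bz ω), b ω), L ω)) f := by
    intro α f hf ω ω' q q' e
    have k1 := Prod.ext_iff.mp e
    exact hf ω ω' q q' (Prod.ext (Prod.ext_iff.mp k1.1).2 k1.2)
  have e2 : ∀ {α : Type} {f : Ω → α}, Det p (fun ω => (b ω, T ω)) f →
      Det p (fun ω => (((dgv X z0 ω, dgv X bz ω), b ω), T ω)) f := by
    intro α f hf ω ω' q q' e
    have k1 := Prod.ext_iff.mp e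
    exact hf ω ω' q q' (Prod.ext (Prod.ext_iff.mp k1.1).2 k1.2)
  obtain ⟨ky, hky, eky⟩ := h.hy
  obtain ⟨kz, hkz, ekz⟩ := h.hz
  refine ⟨h.law, ?_, h.dL, e1 h.dy0, e1 h.dom, e1 h.dz0, e1 h.dbe, e2 h.dth, ?_, h.hth, h.hS,
    h.hyb, ⟨ky, e2 hky, eky⟩, ⟨kz, e2 hkz, ekz⟩⟩
  · intro ω ω' q q' e
    have k1 := h.db ω ω' q q' e
    have k2 := h.dL ω ω' q q' e
    have k3 : (fun ω => (b ω, L ω)) ω = (fun ω => (b ω, L ω)) ω' := Prod.ext k1 k2
    have k4 := hd.dz0 ω ω' q q' k3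
    have k5 := hd.dbz ω ω' q q' k3
    show ((dgv X z0 ω, dgv X bz ω), b ω) = ((dgv X z0 ω', dgv X bz ω'), b ω')
    unfold dgv
    rw [k4, k5, k1]
  · intro ω ω' q q' e
    have k1 := Prod.ext_iff.mp e
    exact h.dS ω ω' q q' (Prod.ext (Prod.ext_iff.mp k1.1).2 k1.2)

/-- A function of the line in the context. -/
theorem dp_ctx {S' S₁ S₂ S₃ : Type} (hp : ∀ ω, 0 ≤ p ω) (N : Ω → S') (V : Ω → S₁) (f : Ω → S₂)
    (c : Ω → S₃) (hf : Det p (fun ω => (V ω, c ω)) f) :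
    dp p N V (fun ω => (f ω, c ω)) ≤ dp p N V c := by
  have h1 := dp_add hp V f N c
  have h2 := dp_nonneg hp f N c
  have h3 : dp p (fun ω => (V ω, f ω)) N c ≤ dp p V N c := by
    refine dp_mono hp ?_ (fun _ _ _ _ e => (Prod.ext_iff.mp e).1)
    intro ω ω' q q' e
    exact Prod.ext (Prod.ext_iff.mp e).1 (hf ω ω' q q' e)
  rw [dp_symm hp N V, dp_symm hp N V]
  linarith

end pre

private theorem num1 {a r ε δ X l A B e u v : ℝ} (hr : 0 ≤ r) (ha : 0 ≤ a) (hA : 0 ≤ A)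
    (hB : 0 ≤ B) (he : (r + 1) * e = ε / 4)
    (h1 : (r + 1) * ((1 - δ) * X * l - a * A - a * B - e * X * l) ≤ u + a * B)
    (h2 : (a - δ) * X * l - A ≤ v) :
    ((1 + a + r) - (ε / 4 + (r + 2) * δ)) * X * l - ((a + 1) * A + 2 * a * B) * (r + 1) ≤
      v + u := by
  have e1 : (r + 1) * ((1 - δ) * X * l - a * A - a * B - e * X * l) =
      (r + 1) * (1 - δ) * X * l - (r + 1) * (a * A + a * B) - (r + 1) * e * X * l := by ring
  have e2 : ((1 + a + r) - (ε / 4 + (r + 2) * δ)) * X * l =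
      (r + 1) * (1 - δ) * X * l + (a - δ) * X * l - ε / 4 * X * l := by ring
  rw [e1, he] at h1
  have e3 : ((a + 1) * A + 2 * a * B) * (r + 1) =
      (r + 1) * (a * A + a * B) + A + a * B + (r * A + r * (a * B)) := by ring
  have e4 : 0 ≤ r * A := mul_nonneg hr hA
  have e5 : 0 ≤ r * (a * B) := mul_nonneg hr (mul_nonneg ha hB)
  rw [e2, e3]
  linarith

private theorem num2 {r A B C k : ℝ} (hr : 0 ≤ r) (hB : 0 ≤ B) (hA : 0 ≤ A) (hC : C = A + B)
    (hk : 4 * ((r + 2) * C) ≤ 4 * k) : A * (r + 1) + B ≤ k := by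
  have h1 : 0 ≤ (r + 1) * B := mul_nonneg (by linarith) hB
  have e : (r + 2) * C = A * (r + 1) + B + A + (r + 1) * B := by
    rw [hC]
    ring
  linarith

private theorem num3 {a r s ε δ X l P Q R U V z : ℝ} (hz : z = ε / 4 * X * l) (hz0 : 0 ≤ z)
    (h1 : ((1 + a + r) - (ε / 4 + (r + 2) * δ)) * X * l - P ≤ U) (h2 : (s - δ) * X * l - R ≤ V)
    (h3 : P + R ≤ z) (hQ : Q = z) :
    ((1 + a + r + s) - (ε + (r + 3) * δ)) * X * l ≤ (U - Q) + V ∧
    ((1 + a + r + s) - (ε + (r + 3) * δ)) * X * l ≤ U + V := by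
  have e : ((1 + a + r + s) - (ε + (r + 3) * δ)) * X * l =
      ((1 + a + r) - (ε / 4 + (r + 2) * δ)) * X * l + (s - δ) * X * l - 3 * z := by
    rw [hz]
    ring
  rw [e]
  constructor <;> linarith

/-- **Natural fullness at a flat context**, pure form, all kinds of passive coordinates. -/
theorem ffull (a r s : ℕ) (ε K : ℝ) (hε : 0 < ε) (hK : 0 ≤ K) :
    ∃ (x₁ ε₂ ι : ℝ) (X₀ : ℕ), 0 < x₁ ∧ 0 < ε₂ ∧ 0 < ι ∧
    ∀ (Ω β Λ' γ Λ Θ : Type) [Fintype Ω] (p : Ω → ℝ) (b : Ω → β) (L : Ω → Λ') (G : Ω → γ)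
      (sl : Ω → Λ) (T : Ω → Θ) (y0 om : Ω → ℝ) (z0 bz : Ω → Fin a → ℝ) (r0 br : Ω → Fin r → ℝ)
      (th : Ω → ℝ) (Sr : Ω → Fin r → ℝ) (Ss : Ω → Fin s → ℝ) (y : Ω → ℝ) (mz : Ω → Fin a → ℝ)
      (mr : Ω → Fin r → ℝ) (ms : Ω → Fin s → ℝ) (X : ℕ) (δ : ℝ),
      FFDat a r s K p b L G sl T y0 om z0 bz r0 br th Sr Ss y mz mr → X₀ ≤ X →
      dp (dbl p sl) (fun x => (T x.1, (G x.2, T x.2))) (fun x => L x.1) (fun x => b x.1) ≤
        ι * X →
      NStrE p sl Sr ((2 : ℝ) ^ (-(x₁ * X))) ε₂ →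
      ((1 + a) - δ) * X * Real.log 2 ≤ CH p (fun ω => (Uni.dg X y ω, dgv X mz ω))
        (fun ω => (((dgv X (fun ω i => mr ω i - Sr ω i * y ω) ω,
          dgv X (fun ω i => br ω i - Sr ω i * om ω) ω), (Uni.dg X om ω, dgv X bz ω)),
          (G ω, (b ω, T ω)))) →
      (s - δ) * X * Real.log 2 ≤ CH p (dgv X (fun ω i => ms ω i - Ss ω i * y ω))
        (fun ω => ((Uni.dg X y ω, (dgv X mz ω, dgv X mr ω)), (G ω, (b ω, T ω)))) →
      ((1 + a + r + s) - (ε + (r + 3) * δ)) * X * Real.log 2 ≤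
        CH p (fun ω => ((Uni.dg X y ω, dgv X mz ω), (dgv X mr ω, dgv X ms ω)))
          (fun ω => (b ω, T ω)) ∧
      ((1 + a + r + s) - (ε + (r + 3) * δ)) * X * Real.log 2 ≤
        CH p (fun ω => ((Uni.dg X y ω, dgv X mz ω), (dgv X mr ω, dgv X ms ω)))
          (fun ω => (G ω, (b ω, T ω))) := by
  have l2 : 0 < Real.log 2 := Real.log_pos (by norm_num)
  have l7 : 0 ≤ Real.log 7 := Real.log_nonneg (by norm_num)
  have lK : 0 ≤ Real.log (4 * K + 3) := Real.log_nonneg (by linarith)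
  have lK2 : 0 ≤ Real.log (2 * K + 5) := Real.log_nonneg (by linarith)
  have ha0 : (0 : ℝ) ≤ a := Nat.cast_nonneg a
  have hr0 : (0 : ℝ) ≤ r := Nat.cast_nonneg r
  have hs0 : (0 : ℝ) ≤ s := Nat.cast_nonneg s
  obtain ⟨e, he⟩ : ∃ e : ℝ, e = ε / (4 * (r + 1)) := ⟨_, rfl⟩
  have he0 : 0 < e := by
    rw [he]
    positivity
  have he1 : (r + 1) * e = ε / 4 := by
    rw [he]
    field_simp
  obtain ⟨C, hC⟩ : ∃ C : ℝ, C = (a + 1) * Real.log (4 * K + 3) + 2 * a * Real.log 7 +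
    s * Real.log (2 * K + 5) := ⟨_, rfl⟩
  have hC0 : 0 ≤ C := by
    rw [hC]
    positivity
  obtain ⟨x₁, ε₂, ι', n₀, hx₁, hε₂, hι', hf⟩ := sfv r e K he0 hK
  obtain ⟨n₁, hn₁⟩ := exists_nat_ge (4 * ((r + 2) * C) / (ε * Real.log 2))
  refine ⟨x₁, ε₂, min ι' (ε / 4 * Real.log 2), n₀ + n₁, hx₁, hε₂, lt_min hι' (by positivity), ?_⟩
  intro Ω β Λ' γ Λ Θ _ p b L G sl T y0 om z0 bz r0 br th Sr Ss y mz mr ms X δ hd hX htm hstr hA hB
  have hX0 : (0 : ℝ) ≤ X := Nat.cast_nonneg X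
  have hX1 : (n₁ : ℝ) ≤ X := by exact_mod_cast (by omega : n₁ ≤ X)
  have k1 : 4 * ((r + 2) * C) ≤ ε * X * Real.log 2 := by
    have := (div_le_iff₀ (by positivity : (0 : ℝ) < ε * Real.log 2)).1 (hn₁.trans hX1)
    linarith
  have hl := hd.sv.law
  have hp := hl.nonneg
  have dth := hd.sv.dth
  have hth := hd.sv.hth
  -- names
  obtain ⟨N, hN⟩ : ∃ N, N = Uni.dg X y := ⟨_, rfl⟩
  obtain ⟨Mz, hMz⟩ : ∃ Mz, Mz = dgv X mz := ⟨_, rfl⟩
  obtain ⟨Mr, hMr⟩ : ∃ Mr, Mr = dgv X mr := ⟨_, rfl⟩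
  obtain ⟨Ms, hMs⟩ : ∃ Ms, Ms = dgv X ms := ⟨_, rfl⟩
  obtain ⟨Ns, hNs⟩ : ∃ Ns, Ns = dgv X (fun ω i => ms ω i - Ss ω i * y ω) := ⟨_, rfl⟩
  obtain ⟨V, hV⟩ : ∃ V, V = fun ω => (dgv X (fun ω i => mr ω i - Sr ω i * y ω) ω,
    dgv X (fun ω i => br ω i - Sr ω i * om ω) ω) := ⟨_, rfl⟩
  obtain ⟨O, hO⟩ : ∃ O, O = Uni.dg X om := ⟨_, rfl⟩
  obtain ⟨Z0, hZ0⟩ : ∃ Z0, Z0 = dgv X z0 := ⟨_, rfl⟩
  obtain ⟨Bz, hBz⟩ : ∃ Bz, Bz = dgv X bz := ⟨_, rfl⟩
  obtain ⟨W, hW⟩ : ∃ W, W = fun ω => ((V ω, (O ω, Bz ω)), (G ω, (b ω, T ω))) := ⟨_, rfl⟩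
  have hA' : ((1 + a) - δ) * X * Real.log 2 ≤ CH p (fun ω => (N ω, Mz ω)) W := by
    rw [hW, hV, hO, hBz, hN, hMz]
    exact hA
  have hB' : (s - δ) * X * Real.log 2 ≤
      CH p Ns (fun ω => ((N ω, (Mz ω, Mr ω)), (G ω, (b ω, T ω)))) := by
    rw [hNs, hN, hMz, hMr]
    exact hB
  -- the condition and its parts
  have dWb : Det p W (fun ω => (b ω, T ω)) := by
    rw [hW]
    intro ω ω' _ _ e
    exact (Prod.ext_iff.mp (Prod.ext_iff.mp e).2).2
  -- (1) the parts of the static block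
  have s1 := CH_chain hp N Mz W
  have s2 : CH p Mz W ≤ a * (X * Real.log 2 + Real.log (4 * K + 3)) := by
    rw [hMz]
    exact CH_dgv_le hl hK hd.hmb W
  have s3 : CH p N (fun ω => (Mz ω, W ω)) ≤ X * Real.log 2 + Real.log (4 * K + 3) := by
    rw [hN]
    exact CH_dg_le hl hK hd.sv.hyb _
  have s4 : (1 - δ) * X * Real.log 2 - a * Real.log (4 * K + 3) ≤
      CH p N (fun ω => (Mz ω, W ω)) := by
    have e1 : ((1 + a) - δ) * X * Real.log 2 = (1 - δ) * X * Real.log 2 +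
      a * (X * Real.log 2) := by ring
    linarith
  have s5 : (a - δ) * X * Real.log 2 - Real.log (4 * K + 3) ≤ CH p Mz W := by
    have e1 : ((1 + a) - δ) * X * Real.log 2 = (a - δ) * X * Real.log 2 +
      X * Real.log 2 := by ring
    linarith
  -- (2) the active position given the static line
  have t1 : CH p Z0 (fun ω => (Mz ω, W ω)) ≤ a * Real.log 7 := by
    rw [hZ0]
    refine CH_z0 (mz := mz) (bz := bz) hl (b := b) (T := T) (th := th)
      (fun ω ω' q q' e => dWb ω ω' q q' (Prod.ext_iff.mp e).2) dth hth hd.hmz ?_ ?_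
    · rw [← hMz]
      exact fun ω ω' _ _ e => (Prod.ext_iff.mp e).1
    · rw [← hBz, hW]
      intro ω ω' _ _ e
      exact (Prod.ext_iff.mp (Prod.ext_iff.mp (Prod.ext_iff.mp (Prod.ext_iff.mp e).2).1).2).2
  have t2 := CH_le_add hp N Z0 (fun ω => (Mz ω, W ω))
  have t3 : CH p N (fun ω => (Z0 ω, (Mz ω, W ω))) ≤
      CH p N (fun ω => (V ω, (O ω, (G ω, (((Z0 ω, Bz ω), b ω), T ω))))) := by
    refine CH_mono_cond hp ?_
    rw [hW]
    intro ω ω' _ _ e
    simp only [Prod.mk.injEq] at e ⊢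
    tauto
  have t4 : (1 - δ) * X * Real.log 2 - a * Real.log (4 * K + 3) - a * Real.log 7 ≤
      CH p N (fun ω => (V ω, (O ω, (G ω, (((Z0 ω, Bz ω), b ω), T ω))))) := by
    linarith
  -- (3) the fibres
  have u0 : dp (dbl p sl) (fun x => (T x.1, (G x.2, T x.2))) (fun x => L x.1)
      (fun x => ((dgv X z0 x.1, dgv X bz x.1), b x.1)) ≤ ι' * X := by
    have hq := dbl_nonneg (b := sl) hp
    refine (dp_ctx hq _ _ _ _ ?_).trans (htm.trans (mul_le_mul_of_nonneg_right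
      (min_le_left _ _) hX0))
    intro x x' q q' e
    have P1 : ∀ {x}, 0 < dbl p sl x → 0 < p x.1 := fun h => (dbl_fst hp).pos hq h
    have e0 := Prod.ext_iff.mp e
    have e1 : (fun ω => (b ω, L ω)) x.1 = (fun ω => (b ω, L ω)) x'.1 := Prod.ext e0.2 e0.1
    have e2 := hd.dz0 _ _ (P1 q) (P1 q') e1
    have e3 := hd.dbz _ _ (P1 q) (P1 q') e1
    show (dgv X z0 x.1, dgv X bz x.1) = (dgv X z0 x'.1, dgv X bz x'.1)
    unfold dgv
    rw [e2, e3]
  have u1 := hf Ω _ Λ' γ Λ Θ p _ L G sl T y0 om r0 br th Sr y mr X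
    ((1 - δ) * X * Real.log 2 - a * Real.log (4 * K + 3) - a * Real.log 7) (hd.toSV X)
    (by omega) u0 hstr (by
      rw [← hZ0, ← hBz, ← hO, ← hN]
      refine t4.trans (le_of_eq ?_)
      rw [hV])
  obtain ⟨R, hR⟩ : ∃ R, R = fun ω => (N ω, Mr ω) := ⟨_, rfl⟩
  have eR : blk X y mr = R := by
    rw [hR, hN, hMr]
    rfl
  rw [← hZ0, ← hBz, eR] at u1
  -- (4) back to the context
  have v1 : CH p Mz (fun ω => (((Z0 ω, Bz ω), b ω), T ω)) ≤ a * Real.log 7 := by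
    rw [hMz]
    refine CH_mz (z0 := z0) (bz := bz) hl (b := b) (T := T) (th := th) ?_ dth hth hd.hmz ?_ ?_
    · intro ω ω' _ _ e
      have e1 := Prod.ext_iff.mp e
      exact Prod.ext (Prod.ext_iff.mp e1.1).2 e1.2
    · rw [← hZ0]
      intro ω ω' _ _ e
      exact (Prod.ext_iff.mp (Prod.ext_iff.mp (Prod.ext_iff.mp e).1).1).1
    · rw [← hBz]
      intro ω ω' _ _ e
      exact (Prod.ext_iff.mp (Prod.ext_iff.mp (Prod.ext_iff.mp e).1).1).2
  have v2 := CH_le_add hp R Mz (fun ω => (((Z0 ω, Bz ω), b ω), T ω))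
  have v3 : CH p R (fun ω => (Mz ω, (((Z0 ω, Bz ω), b ω), T ω))) ≤
      CH p R (fun ω => (Mz ω, (b ω, T ω))) := by
    refine CH_mono_cond hp ?_
    intro ω ω' _ _ e
    simp only [Prod.mk.injEq] at e ⊢
    tauto
  have v4 : CH p Mz W ≤ CH p Mz (fun ω => (b ω, T ω)) := CH_mono_cond hp dWb
  have v5 := CH_chain hp R Mz (fun ω => (b ω, T ω))
  obtain ⟨Q, hQ⟩ : ∃ Q, Q = fun ω => (R ω, Mz ω) := ⟨_, rfl⟩
  have v6 : ((1 + a + r) - (ε / 4 + (r + 2) * δ)) * X * Real.log 2 -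
      ((a + 1) * Real.log (4 * K + 3) + 2 * a * Real.log 7) * (r + 1) ≤
      CH p Q (fun ω => (b ω, T ω)) := by
    rw [hQ, v5]
    exact num1 hr0 ha0 lK l7 he1 (by linarith) (by linarith)
  -- (5) the last rows
  have w1 : CH p Ns (fun ω => (Ms ω, ((N ω, (Mz ω, Mr ω)), (G ω, (b ω, T ω))))) ≤
      s * Real.log (2 * K + 5) := by
    have key := CH_nearw hl (X := X) (x := fun ω i => ms ω i - Ss ω i * y ω)
      (W := fun ω => (Ms ω, ((N ω, (Mz ω, Mr ω)), (G ω, (b ω, T ω))))) (C := 1 + K) (by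
        intro ω ω' q q' e i
        simp only [Prod.mk.injEq] at e
        obtain ⟨e1, ⟨e2, -, -⟩, e3, e4, e5⟩ := e
        rw [hMs] at e1
        rw [hN] at e2
        have g1 := dgv_near e1 i
        have g2 := dg_near e2
        have g3 := congrFun (hd.dSs ω ω' q q' (Prod.ext e4 e3)) i
        have g4 := hd.hSs ω q i
        have e : (2 : ℝ) ^ X * (ms ω i - Ss ω i * y ω) - 2 ^ X * (ms ω' i - Ss ω' i * y ω') =
            (2 ^ X * ms ω i - 2 ^ X * ms ω' i) + -(Ss ω i * (2 ^ X * y ω - 2 ^ X * y ω')) := by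
          rw [← g3]
          ring
        rw [e]
        have g5 : |-(Ss ω i * (2 ^ X * y ω - 2 ^ X * y ω'))| ≤ K * 1 := by
          rw [abs_neg, abs_mul]
          exact mul_le_mul g4 g2 (abs_nonneg _) hK
        refine (abs_add_le _ _).trans ?_
        linarith)
    rw [hNs]
    refine key.trans (le_of_eq ?_)
    congr 2
    ring
  have w2 := CH_le_add hp Ns Ms (fun ω => ((N ω, (Mz ω, Mr ω)), (G ω, (b ω, T ω))))
  have w3 : CH p Ms (fun ω => ((N ω, (Mz ω, Mr ω)), (G ω, (b ω, T ω)))) =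
      CH p Ms (fun ω => (Q ω, (G ω, (b ω, T ω)))) := by
    refine CH_congr hp (fun _ _ _ _ h => (Prod.ext_iff.mp h).1)
      (fun _ _ _ _ h => (Prod.ext_iff.mp h).1) ?_ ?_
    · rw [hQ, hR]
      intro ω ω' _ _ e
      simp only [Prod.mk.injEq] at e ⊢
      tauto
    · rw [hQ, hR]
      intro ω ω' _ _ e
      simp only [Prod.mk.injEq] at e ⊢
      tauto
  have w4 : CH p Ms (fun ω => (Q ω, (G ω, (b ω, T ω)))) ≤ CH p Ms (fun ω => (Q ω, (b ω, T ω))) := by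
    refine CH_mono_cond hp ?_
    intro ω ω' _ _ e
    simp only [Prod.mk.injEq] at e ⊢
    tauto
  have w5 : (s - δ) * X * Real.log 2 - s * Real.log (2 * K + 5) ≤
      CH p Ms (fun ω => (Q ω, (G ω, (b ω, T ω)))) := by linarith
  -- (6) the own frame in the condition
  have x0 : dp p Q G (fun ω => (b ω, T ω)) ≤ ε / 4 * Real.log 2 * X := by
    have hq := dbl_nonneg (b := sl) hp
    have P1 : ∀ {x}, 0 < dbl p sl x → 0 < p x.1 := fun h => (dbl_fst hp).pos hq h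
    have P2 : ∀ {x}, 0 < dbl p sl x → 0 < p x.2 := fun h => (dbl_snd hp).pos hq h
    have g1 : dp (dbl p sl) (fun x => (G x.2, T x.2)) (fun x => L x.2) (fun x => b x.2) ≤
        dp (dbl p sl) (fun x => (T x.1, (G x.2, T x.2))) (fun x => L x.1) (fun x => b x.1) := by
      have c1 : dp (dbl p sl) (fun x => (G x.2, T x.2)) (fun x => L x.2) (fun x => b x.2) =
          dp (dbl p sl) (fun x => (G x.2, T x.2)) (fun x => L x.2) (fun x => b x.1) := by
        refine dp_congr_cond hq ?_ ?_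
        · intro x x' q q' e
          have a1 := hd.sv.db _ _ (P1 q) (P2 q) (dbl_eq hp q)
          have a2 := hd.sv.db _ _ (P1 q') (P2 q') (dbl_eq hp q')
          show b x.1 = b x'.1
          rw [a1, a2]
          exact e
        · intro x x' q q' e
          have a1 := hd.sv.db _ _ (P1 q) (P2 q) (dbl_eq hp q)
          have a2 := hd.sv.db _ _ (P1 q') (P2 q') (dbl_eq hp q')
          show b x.2 = b x'.2
          rw [← a1, ← a2]
          exact e
      rw [c1]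
      refine dp_mono hq ?_ ?_
      · intro x x' _ _ e
        exact (Prod.ext_iff.mp (Prod.ext_iff.mp e).1).2
      · intro x x' q q' e
        have a1 := hd.sv.dL _ _ (P1 q) (P2 q) (dbl_eq hp q)
        have a2 := hd.sv.dL _ _ (P1 q') (P2 q') (dbl_eq hp q')
        show L x.2 = L x'.2
        rw [← a1, ← a2]
        exact (Prod.ext_iff.mp e).1
    have g2 : dp (dbl p sl) (fun x => (G x.2, T x.2)) (fun x => L x.2) (fun x => b x.2) =
        dp p (fun ω => (G ω, T ω)) L b := by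
      unfold dp
      have m1 : CH (dbl p sl) (fun x => (G x.2, T x.2)) (fun x => b x.2) =
          CH p (fun ω => (G ω, T ω)) b := (dbl_snd (b := sl) hp).CH (fun ω => (G ω, T ω)) b
      have m2 : CH (dbl p sl) (fun x => (G x.2, T x.2)) (fun x => (L x.2, b x.2)) =
          CH p (fun ω => (G ω, T ω)) (fun ω => (L ω, b ω)) :=
        (dbl_snd (b := sl) hp).CH (fun ω => (G ω, T ω)) (fun ω => (L ω, b ω))
      rw [m1, m2]
    have g3 := dp_add hp G T L b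
    have g4 := dp_nonneg hp T L b
    have g5 : dp p Q G (fun ω => (b ω, T ω)) ≤ dp p L G (fun ω => (T ω, b ω)) := by
      have c1 : dp p Q G (fun ω => (b ω, T ω)) = dp p Q G (fun ω => (T ω, b ω)) := by
        refine dp_congr_cond hp ?_ ?_
        · intro ω ω' _ _ e
          have := Prod.ext_iff.mp e
          exact Prod.ext this.2 this.1
        · intro ω ω' _ _ e
          have := Prod.ext_iff.mp e
          exact Prod.ext this.2 this.1
      rw [c1]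
      refine dp_mono hp ?_ (fun _ _ _ _ e => (Prod.ext_iff.mp e).1)
      intro ω ω' q q' e
      simp only [Prod.mk.injEq] at e
      obtain ⟨e1, e2, e3⟩ := e
      have f1 : (fun ω => (b ω, L ω)) ω = (fun ω => (b ω, L ω)) ω' := Prod.ext e3 e1
      have f2 : (fun ω => (b ω, T ω)) ω = (fun ω => (b ω, T ω)) ω' := Prod.ext e3 e2
      have d1 := hd.sv.dy0 ω ω' q q' f1
      have d2 := hd.sv.dom ω ω' q q' f1
      have d3 := hd.sv.dz0 ω ω' q q' f1
      have d4 := hd.sv.dbe ω ω' q q' f1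
      have d5 := hd.dz0 ω ω' q q' f1
      have d6 := hd.dbz ω ω' q q' f1
      have d7 := dth ω ω' q q' f2
      obtain ⟨ky, hky, eky⟩ := hd.sv.hy
      obtain ⟨kr, hkr, ekr⟩ := hd.sv.hz
      obtain ⟨kz, hkz, ekz⟩ := hd.hmz
      have d8 := hky ω ω' q q' f2
      have d9 := hkr ω ω' q q' f2
      have d10 := hkz ω ω' q q' f2
      have y1 : y ω = y ω' := by rw [eky ω q, eky ω' q', d1, d2, d7, d8]
      have y2 : mr ω = mr ω' := by
        funext i
        rw [ekr ω q, ekr ω' q', d3, d4, d7, d9]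
      have y3 : mz ω = mz ω' := by
        funext i
        rw [ekz ω q, ekz ω' q', d5, d6, d7, d10]
      show Q ω = Q ω'
      rw [hQ, hR, hN, hMr, hMz]
      unfold Uni.dg dgv
      simp only [y1, y2, y3]
    have g6 : min ι' (ε / 4 * Real.log 2) * X ≤ ε / 4 * Real.log 2 * X :=
      mul_le_mul_of_nonneg_right (min_le_right _ _) hX0
    rw [dp_symm hp G L] at g3
    linarith
  have x1 : CH p Q (fun ω => (b ω, T ω)) - ε / 4 * Real.log 2 * X ≤
      CH p Q (fun ω => (G ω, (b ω, T ω))) := by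
    have : dp p Q G (fun ω => (b ω, T ω)) = CH p Q (fun ω => (b ω, T ω)) -
      CH p Q (fun ω => (G ω, (b ω, T ω))) := rfl
    linarith
  -- (7) the sums
  have z1 : ∀ {U' : Type} (U : Ω → U'), CH p (fun ω => ((N ω, Mz ω), (Mr ω, Ms ω))) U =
      CH p Q U + CH p Ms (fun ω => (Q ω, U ω)) := by
    intro U' U
    have h1 := CH_chain hp Ms Q U
    rw [← h1]
    refine CH_congr hp ?_ ?_ (fun _ _ _ _ h => h) (fun _ _ _ _ h => h)
    · rw [hQ, hR]
      intro ω ω' _ _ e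
      simp only [Prod.mk.injEq] at e ⊢
      tauto
    · rw [hQ, hR]
      intro ω ω' _ _ e
      simp only [Prod.mk.injEq] at e ⊢
      tauto
  have z2 : ((a + 1) * Real.log (4 * K + 3) + 2 * a * Real.log 7) * (r + 1 : ℝ) +
      s * Real.log (2 * K + 5) ≤ ε / 4 * X * Real.log 2 :=
    num2 hr0 (by positivity) (by positivity) hC (by linarith)
  have z4 : 0 ≤ ε / 4 * X * Real.log 2 := by positivity
  have z5 : ε / 4 * Real.log 2 * X = ε / 4 * X * Real.log 2 := by ring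
  have z6 := num3 rfl z4 v6 w5 z2 (Q := ε / 4 * X * Real.log 2) rfl
  rw [z5] at x1
  rw [← hN, ← hMz, ← hMr, ← hMs]
  constructor
  · rw [z1]
    exact z6.2.trans (add_le_add le_rfl w4)
  · rw [z1]
    exact z6.1.trans (add_le_add x1 le_rfl)

end Pool.KG
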